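import Mathlib
import Pool.Agent.H562R2.DPerfect
import Pool.Agent.H562R2.DHyperGame

/-!
Spectral threshold `1 - 1/d` of the basic semidefinite relaxation of `d`-to-1 Label Cover with
perfect completeness; it is exact for powers of two.
-/

set_option autoImplicit false

namespace Pool.Agent.Results.MP_62e2f2_lc.BasicSdpThreshold

open Pool.Agent.H562R2

/-- Rounding of perfect solutions when the gap exceeds `1 - 1/d`, and `2^j`-to-1 instances of gap
`1 - 1/2^j` with perfect solutions and arbitrarily small value. -/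
theorem result :
    (∀ (d : ℕ) (V W E A B D : Type) [Fintype V] [Fintype W] [Fintype E] [Nonempty E] [Fintype A]
      [Fintype B] [DecidableEq B] [Fintype D] (v : E → V) (w : E → W) (π : E → A → B)
      (x : W → A → D → ℝ) (y : V → B → D → ℝ) (lam : ℝ),
      1 ≤ d → (∀ e b, (Finset.univ.filter fun a => π e a = b).card ≤ d) →
      HasGap w v lam → 0 < lam → lam ≤ 1 → 1 - lam ≤ 1 / (d : ℝ) → BasicSdp w v x y →
      (Fintype.card E : ℝ) ≤ ∑ e, ∑ a, x (w e) a ⬝ᵥ y (v e) (π e a) →
      ∃ (M : W → A) (L : V → B), (1 - (1 - 1 / (d : ℝ)) / lam) ^ 2 * Fintype.card E ≤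
        ((Finset.univ.filter fun e => π e (M (w e)) = L (v e)).card : ℝ)) ∧
    (∀ (j : ℕ) (δ : ℝ), 1 ≤ j → 0 < δ →
      ∃ (V W E A B D : Type) (_ : Fintype V) (_ : Fintype W) (_ : Fintype E) (_ : Nonempty E)
        (_ : Fintype A) (_ : Fintype B) (_ : DecidableEq B) (_ : Fintype D) (v : E → V)
        (w : E → W) (π : E → A → B) (x : W → A → D → ℝ) (y : V → B → D → ℝ),
        Fintype.card A = 2 ^ j * Fintype.card B ∧
        (∀ e b, (Finset.univ.filter fun a => π e a = b).card = 2 ^ j) ∧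
        HasGap w v (1 - 1 / 2 ^ j) ∧ BasicSdp w v x y ∧
        (Fintype.card E : ℝ) ≤ ∑ e, ∑ a, x (w e) a ⬝ᵥ y (v e) (π e a) ∧
        ∀ (M : W → A) (L : V → B),
          ((Finset.univ.filter fun e => π e (M (w e)) = L (v e)).card : ℝ) ≤
            δ * Fintype.card E) := by
  refine ⟨?_, ?_⟩
  · intro d V W E A B D _ _ _ _ _ _ _ _ v w π x y lam hd hfib hgap hlam hlam1 hle hfeas hval
    classical
    by_contra hcon
    push Not at hcon
    obtain ⟨z, hz1, hz2, hz3, hz4, hz5, hxy⟩ := hfeas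
    have hx : ∀ u, Fam z (x u) := fun u => ⟨hz1, hz2 u, hz4 u⟩
    have hy : ∀ v, Fam z (y v) := fun v => ⟨hz1, hz3 v, hz5 v⟩
    have hneA : Nonempty (W → A) ∧ Nonempty (V → B) := by
      constructor
      · by_contra hne
        rw [not_nonempty_iff, isEmpty_pi] at hne
        obtain ⟨u, hu⟩ := hne
        have h1 := (hx u).sum_norm
        rw [Fintype.sum_empty] at h1
        exact zero_ne_one h1
      · by_contra hne
        rw [not_nonempty_iff, isEmpty_pi] at hne
        obtain ⟨v, hv⟩ := hne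
        have h1 := (hy v).sum_norm
        rw [Fintype.sum_empty] at h1
        exact zero_ne_one h1
    obtain ⟨⟨L0⟩, ⟨M0⟩⟩ := hneA
    obtain ⟨p, -, hp⟩ := Finset.exists_max_image (Finset.univ : Finset ((W → A) × (V → B)))
      (fun p => (Finset.univ.filter fun e => π e (p.1 (w e)) = p.2 (v e)).card)
      ⟨(L0, M0), Finset.mem_univ _⟩
    have h1 := basic_round_d w v π d hd hfib lam hlam hlam1 hgap hle
      ⟨z, hz1, hz2, hz3, hz4, hz5, hxy⟩ hval
      ((Finset.univ.filter fun e => π e (p.1 (w e)) = p.2 (v e)).card : ℝ)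
      (fun L M => by exact_mod_cast hp (L, M) (Finset.mem_univ _))
    have h2 := hcon p.1 p.2
    linarith
  · intro j δ hj hδ
    have h2j : (0 : ℝ) < 2 ^ j := by positivity
    obtain ⟨η, hη⟩ : ∃ η : ℝ, η = δ ^ 2 / 2 ^ j / 2 := ⟨_, rfl⟩
    have hη0 : 0 < η := by rw [hη]; positivity
    obtain ⟨J, hJ⟩ : ∃ J : ℕ, 1 / ((J : ℝ) + 1) < η := exists_nat_one_div_lt hη0
    obtain ⟨m, hm⟩ : ∃ m : ℕ, 3 ^ J * Real.sqrt (1 / 2 ^ (j + m)) ≤ η := by
      obtain ⟨m, hm⟩ := exists_pow_lt_of_lt_one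
        (show (0 : ℝ) < (η / 3 ^ J) ^ 2 by positivity) (show (1 / 2 : ℝ) < 1 by norm_num)
      refine ⟨m, ?_⟩
      rw [mul_comm, ← le_div_iff₀ (by positivity)]
      apply Real.sqrt_le_iff.mpr
      refine ⟨by positivity, ?_⟩
      rw [← one_div_pow, pow_add]
      have h1 : (0 : ℝ) < (1 / 2) ^ m := by positivity
      have h2 : ((1 : ℝ) / 2) ^ j ≤ 1 := pow_le_one₀ (by norm_num) (by norm_num)
      nlinarith
    have hfx : ∀ f : Fn (j + m), Fam (fun S => if S = 0 then (1 : ℝ) else 0) (xv f) := fun f =>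
      ⟨zfun_unit, xv_sum f, xv_orth f⟩
    refine ⟨Mx j m × Fn m, Fn (j + m), DE j m, Gam (j + m), Gam m, Gam (j + m),
      inferInstance, inferInstance, inferInstance, inferInstance, inferInstance, inferInstance,
      inferInstance, inferInstance, dt, ds, dp, xv, dyv, ?_, dp_card, dhasGap, ?_, ?_, ?_⟩
    · rw [Fintype.card_fun, Fintype.card_fun, Fintype.card_bool, Fintype.card_fin,
        Fintype.card_fin, pow_add]
    · refine ⟨fun S => if S = 0 then (1 : ℝ) else 0, zfun_unit, xv_sum, dyv_sum, xv_orth,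
        dyv_orth, ?_⟩
      intro e a b
      rw [perf_dot (hfx (ds e)) (dp e) (dperfect_edge e)]
      split_ifs
      · exact dot_self_nonneg _
      · exact le_refl _
    · have h1 : ∀ e : DE j m, ∑ a, xv (ds e) a ⬝ᵥ dyv (dt e) (dp e a) = 1 := by
        intro e
        rw [← (hfx (ds e)).sum_norm]
        refine Finset.sum_congr rfl fun a _ => ?_
        rw [perf_dot (hfx (ds e)) (dp e) (dperfect_edge e), if_pos rfl]
      simp only [h1]
      simp
    · intro M L
      refine (dvalue hj M L J (2 ^ j / δ) (by positivity)).trans ?_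
      apply mul_le_mul_of_nonneg_right _ (Nat.cast_nonneg _)
      have h1 : 3 ^ J * Real.sqrt (1 / 2 ^ (j + m)) + 1 / ((J : ℝ) + 1) ≤ δ ^ 2 / 2 ^ j := by
        rw [hη] at hJ hm
        linarith
      calc 2 ^ j / δ / 2 * (3 ^ J * Real.sqrt (1 / 2 ^ (j + m)) + 1 / ((J : ℝ) + 1)) +
            2 ^ j / (2 * (2 ^ j / δ))
          ≤ 2 ^ j / δ / 2 * (δ ^ 2 / 2 ^ j) + 2 ^ j / (2 * (2 ^ j / δ)) := by
            have : (0 : ℝ) ≤ 2 ^ j / δ / 2 := by positivity
            have := mul_le_mul_of_nonneg_left h1 this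
            linarith
        _ = δ := by
            field_simp
            ring

end Pool.Agent.Results.MP_62e2f2_lc.BasicSdpThreshold
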