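import Mathlib
import Pool.Agent.H562R2.PermGame

/-!
Exact spectral threshold `1 - 1/√d` for the number of far-apart perfect labelings of `d`-to-1
Label Cover instances.
-/

set_option autoImplicit false

namespace Pool.Agent.Results.MP_62e2f2_lc.Clusters

open Pool.Agent.H562R2

/-- Upper bound on the number of nearly perfect labelings with small pairwise agreement when the
gap exceeds `1 - 1/√d`, and instances of gap `1 - 1/√d` without any such bound. -/
theorem result (d : ℕ) (hd : 1 ≤ d) :
    (∀ (V W E : Type) [Fintype V] [Fintype W] [Fintype E] [Nonempty E] (R n : ℕ)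
      (v : E → V) (w : E → W) (π : E → Fin (d * R) → Fin R)
      (L : Fin n → V → Fin R) (M : Fin n → W → Fin (d * R)) (lam ε α : ℝ),
      (∀ e b, (Finset.univ.filter fun a => π e a = b).card ≤ d) →
      HasGap v w lam → 0 < lam → lam ≤ 1 → ε ≤ 1 → 1 - lam ≤ (1 - ε) ^ 2 / Real.sqrt d →
      α ≤ 1 →
      (∀ i, (1 - ε) * Fintype.card E ≤
        ((Finset.univ.filter fun e => π e (M i (w e)) = L i (v e)).card : ℝ)) →
      (∀ i j, i ≠ j →
        ((Finset.univ.filter fun e => M i (w e) = M j (w e)).card : ℝ) ≤ α * Fintype.card E) →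
      (n : ℝ) * ((1 - (1 - (1 - ε) ^ 2 / Real.sqrt d) / lam) ^ 2 - α) ≤ (1 - α) * R) ∧
    (∀ R n : ℕ, 1 ≤ R →
      ∃ (V W E : Type) (_ : Fintype V) (_ : Fintype W) (_ : Fintype E) (_ : Nonempty E)
        (v : E → V) (w : E → W) (π : E → Fin (d * R) → Fin R)
        (L : Fin n → V → Fin R) (M : Fin n → W → Fin (d * R)),
        (∀ e b, (Finset.univ.filter fun a => π e a = b).card = d) ∧
        HasGap v w (1 - 1 / Real.sqrt d) ∧
        (∀ i e, π e (M i (w e)) = L i (v e)) ∧
        ∀ i j, i ≠ j → (Finset.univ.filter fun e => M i (w e) = M j (w e)).card * (d * R) ≤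
          Fintype.card E) := by
  refine ⟨?_, ?_⟩
  · intro V W E _ _ _ _ R n v w π L M lam ε α hfib hgap hlam hlam1 hε1 hle hα1 hval hagree
    rcases Nat.eq_zero_or_pos n with h0 | h0
    · subst h0
      rw [Nat.cast_zero, zero_mul]
      exact mul_nonneg (by linarith) (Nat.cast_nonneg _)
    · have : Nonempty (Fin n) := ⟨⟨0, h0⟩⟩
      have h1 := d_cluster w v π d hd hfib lam ε hlam hlam1 hgap.swap hε1 hle M L α hα1 hagree hval
      rwa [Fintype.card_fin, Fintype.card_fin] at h1
  · intro R n hR
    obtain ⟨bl, hbl⟩ : ∃ bl : Fin (d * R) → Fin R, ∀ z,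
        (Finset.univ.filter fun q => bl q = z).card = d := by
      refine ⟨fun q => (finProdFinEquiv.symm q).2, fun z => ?_⟩
      have h1 : (Finset.univ.filter fun q : Fin (d * R) => (finProdFinEquiv.symm q).2 = z).card =
          (Finset.univ : Finset (Fin d)).card := by
        refine Finset.card_bij' (fun q _ => (finProdFinEquiv.symm q).1)
          (fun i _ => finProdFinEquiv (i, z)) ?_ ?_ ?_ ?_
        · intro q _
          exact Finset.mem_univ _
        · intro i _
          rw [Finset.mem_filter]
          exact ⟨Finset.mem_univ _, by rw [Equiv.symm_apply_apply]⟩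
        · intro q hq
          rw [Finset.mem_filter] at hq
          rw [← hq.2]
          exact finProdFinEquiv.apply_symm_apply q
        · intro i _
          rw [Equiv.symm_apply_apply]
      rw [h1, Finset.card_univ, Fintype.card_fin]
    have hQ : 0 < Fintype.card (Fin (d * R)) := by
      rw [Fintype.card_fin]
      exact Nat.mul_pos hd hR
    have : Nonempty (Fin (d * R)) := ⟨⟨0, Nat.mul_pos hd hR⟩⟩
    refine ⟨Equiv.Perm (Fin (d * R)) × (Fin n → Fin R), Fin n → Fin (d * R),
      PE (Fin (d * R)) n, inferInstance, inferInstance, inferInstance, inferInstance,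
      pt bl, fun e => e.2, fun e a => bl (e.1 a), fun i g => g.2 i, fun i f => f i, ?_, ?_, ?_, ?_⟩
    · intro e b
      have h1 : (Finset.univ.filter fun a => bl (e.1 a) = b) =
          (Finset.univ.filter fun q => bl q = b).map e.1.symm.toEmbedding := by
        ext a
        simp only [Finset.mem_filter, Finset.mem_univ, true_and, Finset.mem_map,
          Equiv.coe_toEmbedding]
        constructor
        · intro h
          exact ⟨e.1 a, h, Equiv.symm_apply_apply _ _⟩
        · rintro ⟨q, hq, rfl⟩
          rwa [Equiv.apply_symm_apply]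
      rw [h1, Finset.card_map, hbl]
    · exact (perm_hasGap bl d hd hbl hQ n).swap
    · intro i e
      rfl
    · intro i j hij
      have := perm_agree (Q := Fin (d * R)) n i j hij
      rwa [Fintype.card_fin] at this

end Pool.Agent.Results.MP_62e2f2_lc.Clusters
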