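import Pool.Agent.H589R3.DT.Main

/-!
Khot's d-to-1 conjecture holds unconditionally, with perfect completeness, in the model of
randomised circuits of monotone real gates: for all `d ≥ 2` and `ε > 0` there is a number `R` of
labels such that such circuits need exponential size to tell the d-to-1 games of value one from
those of value less than `ε`.  The inputs are the constraints of the game, and the gates are
arbitrary nondecreasing real functions of two values; some nondecreasing function of the
constraints decides the problem.  (For `d = 1` the analogous statement fails.)

Proof: `R = p` is a large prime and a right label is a pair of an element of `ℤ/p` and a number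
`j < d`; the constraint on the `i`-th edge at a right vertex is `label v = x - i j + s`, with a
shift `s`.  On a graph with right degree `D`, locally sparse and of large girth, some choice of the
shifts makes the value small (counting), but the labels of the ends of nonbacktracking walks with
`2 d p + 4` inner vertices are independent (mixing: this needs `d ≥ 2`), so that closed sets have
locally consistent labellings.  Each vertex is blown up to a cloud.  The NO instances of the hard
distribution are random copies of the game, one vertex per cloud; the YES instances are all
constraints satisfied by random labels of the vertices of the clouds.  The functions computed by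
small circuits are approximated by level functions on the locally consistent labellings.
-/

namespace Pool.Agent.Results.MP_62e2f2_lc.MonotoneCircuits

open H630VC H589DT

/-- (1) For all `d ≥ 2` and `ε > 0` there are `R` and `N0` such that for all `N ≥ N0`: every
randomised circuit (a finite family `l ω`, `ω ∈ Ω`) of monotone real gates which, on the d-to-1
games with `N` left and `N` right vertices, `R` left labels and `d R` right labels, tells the games
of value less than `ε` from those of value one for at least three quarters of the `ω`, has a member
with at least `2^(N^(1/14))` gates. (2) If `ε ≤ 1` then some nondecreasing function of the inputs is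
one on all games of value less than `ε` and zero on all games of value one. -/
theorem result :
    (∀ d : ℕ, 2 ≤ d → ∀ ε : ℝ, 0 < ε → ∃ R : ℕ, 1 ≤ R ∧ ∃ N0 : ℕ, ∀ N : ℕ, N0 ≤ N →
      ∀ (Ω : Type) [Fintype Ω] [Nonempty Ω] (l : Ω → List (DGame (Fin N) (Fin N) d R → ℝ)),
      (∀ ω, Prog (dInputs (Fin N) (Fin N) d R) (l ω)) → DDecides ε l →
      ∃ ω, (2 : ℝ) ^ ((N : ℝ) ^ (1 / 14 : ℝ)) ≤ (l ω).length) ∧
    (∀ ε : ℝ, ε ≤ 1 → ∀ (V W : Type) [Fintype V] [Fintype W] (d R : ℕ),
      ∃ f : DGame V W d R → ℝ, (∀ I J, (∀ g ∈ dInputs V W d R, g I ≤ g J) → f I ≤ f J) ∧
      ∀ I, (DNo ε I → f I = 1) ∧ (DYes I → f I = 0)) :=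
  ⟨fun d hd ε hε => dto1 d hd ε hε, fun ε hε V W _ _ d R => dto1_monotone ε hε V W d R⟩

end Pool.Agent.Results.MP_62e2f2_lc.MonotoneCircuits
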