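import Mathlib
import Pool.Agent.H562R2.DPair

/-!
The semidefinite relaxation with pairwise nonnegative inner products on expanding `d`-to-1 Label
Cover instances.
-/

set_option autoImplicit false

namespace Pool.Agent.Results.MP_62e2f2_lc.PairwiseSdp

open Pool.Agent.H562R2

/-- Rounding of nearly perfect solutions of the pairwise relaxation when the second singular value
`1 - lam` is at most `(1 - ε)² / √d`. -/
theorem result (d : ℕ) (V W E A B D : Type) [Fintype V] [Fintype W] [Fintype E] [Nonempty E]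
    [Fintype A] [Fintype B] [DecidableEq B] [Fintype D] (v : E → V) (w : E → W)
    (π : E → A → B) (x : W → A → D → ℝ) (y : V → B → D → ℝ) (lam ε : ℝ) (hd : 1 ≤ d)
    (hfib : ∀ e b, (Finset.univ.filter fun a => π e a = b).card ≤ d)
    (hgap : HasGap w v lam) (hlam : 0 < lam) (hlam1 : lam ≤ 1) (hε1 : ε ≤ 1)
    (hle : 1 - lam ≤ (1 - ε) ^ 2 / Real.sqrt d)
    (hfeas : SdpFeasible x y)
    (hval : (1 - ε) * Fintype.card E ≤ ∑ e, ∑ a, x (w e) a ⬝ᵥ y (v e) (π e a)) :
    ∃ (M : W → A) (L : V → B),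
      ((1 - (1 - (1 - ε) ^ 2 / Real.sqrt d) / lam) ^ 2 - Real.sqrt (2 * ε)) * Fintype.card E ≤
        ((Finset.univ.filter fun e => π e (M (w e)) = L (v e)).card : ℝ) := by
  classical
  by_contra hcon
  push Not at hcon
  obtain ⟨z, hx, hy⟩ := hfeas.left
  have hneA : Nonempty (W → A) ∧ Nonempty (V → B) := by
    constructor
    · by_contra hne
      rw [not_nonempty_iff, isEmpty_pi] at hne
      obtain ⟨u, hu⟩ := hne
      have h1 := (hx u).sum_norm
      rw [Fintype.sum_empty] at h1
      exact zero_ne_one h1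
    · by_contra hne
      rw [not_nonempty_iff, isEmpty_pi] at hne
      obtain ⟨v, hv⟩ := hne
      have h1 := (hy v).sum_norm
      rw [Fintype.sum_empty] at h1
      exact zero_ne_one h1
  obtain ⟨⟨L0⟩, ⟨M0⟩⟩ := hneA
  obtain ⟨p, -, hp⟩ := Finset.exists_max_image (Finset.univ : Finset ((W → A) × (V → B)))
    (fun p => (Finset.univ.filter fun e => π e (p.1 (w e)) = p.2 (v e)).card)
    ⟨(L0, M0), Finset.mem_univ _⟩
  have h1 := pair_round_robust w v π d hd hfib lam ε hlam hlam1 hε1 hle hgap hfeas hval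
    ((Finset.univ.filter fun e => π e (p.1 (w e)) = p.2 (v e)).card : ℝ)
    (fun L M => by exact_mod_cast hp (L, M) (Finset.mem_univ _))
  have h2 := hcon p.1 p.2
  linarith

end Pool.Agent.Results.MP_62e2f2_lc.PairwiseSdp
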